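import Pool.Agent.Lib.MP_2f4918_al.Para

/-!
# (QP1) implies (QP2) for classes of twisted involutions
-/

namespace Pool.Agent.Results.MP_2f4918_al.QP1ImpliesQP2

open Pool.Agent.Lib.MP_2f4918_al RootDatum CoxeterSystem

variable {B W : Type*} [Group W] {M : CoxeterMatrix B} {cs : CoxeterSystem M W}

/-- Lengths after moving to standard position. -/
lemma len_conj {P : Submodule ℝ (B →₀ ℝ)} {a b : B →₀ ℝ} (h : Dih (datum cs) P a b)
    {g : W} (hg : ∀ δ ∈ (datum cs).pos P, 0 < hgt (gr cs g δ))
    (hgs : ∀ c, (c = a ∨ c = b) → ∃ i, gr cs g c = ee i) {x₀ : WPlus cs}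
    (hx₀ : (datum cs).inv P x₀ = ∅) (hP₀ : ∀ v ∈ P, (datum cs).act x₀⁻¹ v ∈ P) :
    ∀ n : ℕ, ∀ d ∈ (datum cs).D a b, (datum cs).lev P (d * x₀) = n →
      lenPlus cs (incl cs g * (d * x₀) * (incl cs g)⁻¹) =
        lenPlus cs (incl cs g * x₀ * (incl cs g)⁻¹) + n := by
  intro n
  induction n with
  | zero =>
    intro d hd h0
    rw [h.eq_one hx₀ hd (lev_eq_zero.mp h0), one_mul, add_zero]
  | succ n ih =>
    intro d hd hn
    obtain ⟨c, hc, hcx⟩ := h.exists_descent (z := d * x₀) (by omega)
    have hcp := h.lpos hc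
    have h1 := h.lev_descent hc hcx
    have hass : (datum cs).refl c * (d * x₀) = ((datum cs).refl c * d) * x₀ := by
      rw [mul_assoc]
    have hd' : (datum cs).refl c * d ∈ (datum cs).D a b := mul_mem (refl_mem_D hc) hd
    have h2 := ih _ hd' (by rw [← hass]; omega)
    obtain ⟨i, hi⟩ := hgs c hc
    set z' := ((datum cs).refl c * d) * x₀ with hz'
    have hz : d * x₀ = (datum cs).refl c * z' := by
      rw [← hass, (datum cs).refl_mul_refl_mul hcp.1]
    have hcz' : c ∉ (datum cs).inv P z' := by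
      rw [← hass, mem_inv_refl_mul hcp]
      exact not_not_intro hcx
    set Z := incl cs g * z' * (incl cs g)⁻¹ with hZ
    have h3 : incl cs g * (d * x₀) * (incl cs g)⁻¹ = (datum cs).refl (ee i) * Z := by
      have h4 := (datum cs).refl_act hcp.1 (incl cs g)
      have h5 : (datum cs).act (incl cs g) c = ee i := by
        rw [← hi]; exact actPlus_incl g c
      rw [h5] at h4
      rw [h4, hz, hZ]
      group
    have h6 : (datum cs).act Z⁻¹ (ee i) = gr cs g ((datum cs).act z'⁻¹ c) := by
      have h7 : Z⁻¹ = incl cs g * (z'⁻¹ * incl cs g⁻¹) := by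
        rw [hZ, map_inv]; group
      rw [h7, (datum cs).act_mul, (datum cs).act_mul, ← hi]
      have h8 : ∀ (w : W) (v : B →₀ ℝ), (datum cs).act (incl cs w) v = gr cs w v :=
        fun w v => actPlus_incl w v
      rw [h8, h8, gr_inv_gr]
    have h7 : (datum cs).act z'⁻¹ c ∈ (datum cs).pos P := by
      refine ⟨(datum cs).act_mem _ _ hcp.1, ?_, ?_⟩
      · rw [hz', mul_inv_rev, (datum cs).act_mul]
        exact hP₀ _ (h.D_act_mem (inv_mem hd') hcp.2.1)
      · rcases lt_trichotomy ((datum cs).ht ((datum cs).act z'⁻¹ c)) 0 with h8 | h8 | h8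
        · exact absurd ⟨hcp, h8⟩ hcz'
        · exact absurd h8 ((datum cs).ht_ne _ ((datum cs).act_mem _ _ hcp.1))
        · exact h8
    have h8 : 0 < (datum cs).ht ((datum cs).act Z⁻¹ (ee i)) := by
      rw [h6]
      exact hg _ h7
    have h9 := ((datum cs).lt_len_iff (isSimple_ee i).1 (isSimple_ee i).2.1 Z).mpr h8
    change lenPlus cs Z < lenPlus cs ((datum cs).refl (ee i) * Z) at h9
    rw [h3]
    have h10 : lenPlus cs ((datum cs).refl (ee i) * Z) = lenPlus cs Z + 1 := by
      rw [refl_ee] at h9 ⊢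
      have h11 : (incl cs (cs.simple i) * Z).left = cs.simple i * Z.left := by
        rw [SemidirectProduct.mul_left]; rfl
      unfold lenPlus at h9 ⊢
      rw [h11] at h9 ⊢
      rcases cs.length_simple_mul Z.left i with h12 | h12 <;> omega
    rw [h10, h2]
    ring

lemma left_incl_mul (r : W) (w : WPlus cs) : (incl cs r * w).left = r * w.left := by
  rw [SemidirectProduct.mul_left]; rfl

lemma left_mul_incl (r : W) (w : WPlus cs) : (w * incl cs r).left = w.left * w.right.1 r := by
  rw [SemidirectProduct.mul_left]; rfl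

lemma len_simple_mul (i : B) (w : WPlus cs) :
    lenPlus cs (incl cs (cs.simple i) * w) = lenPlus cs w + 1 ∨
      lenPlus cs (incl cs (cs.simple i) * w) + 1 = lenPlus cs w := by
  unfold lenPlus
  rw [left_incl_mul]
  exact cs.length_simple_mul w.left i

lemma len_mul_simple (i : B) (w : WPlus cs) :
    lenPlus cs (w * incl cs (cs.simple i)) = lenPlus cs w + 1 ∨
      lenPlus cs (w * incl cs (cs.simple i)) + 1 = lenPlus cs w := by
  unfold lenPlus
  rw [left_mul_incl, ← pm_spec]
  exact cs.length_mul_simple w.left _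

lemma isReflection_aut (θ : AutWS cs) {r : W} (hr : cs.IsReflection r) :
    cs.IsReflection (θ.1 r) := by
  obtain ⟨u, i, rfl⟩ := hr
  refine ⟨θ.1 u, pm θ i, ?_⟩
  rw [map_mul, map_mul, map_inv, pm_spec]

lemma len_conj_mod {r : W} (hr : cs.IsReflection r) (w : WPlus cs) :
    lenPlus cs (incl cs r * w * incl cs r) % 2 = lenPlus cs w % 2 := by
  unfold lenPlus
  rw [left_mul_incl, left_incl_mul, cs.length_mul_mod_two]
  have h1 := cs.length_mul_mod_two r w.left
  have h2 : Odd (cs.length r) := hr.odd_length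
  have h3 := (isReflection_aut (incl cs r * w).right hr).odd_length
  rw [Nat.odd_iff] at h2 h3
  omega

/-- **(QP1) implies (QP2).** Let `cs` be a Coxeter system, finite or infinite, and let `K` be a
`W`-conjugacy class of twisted involutions in `W⁺`. If `K` satisfies (QP1) then it satisfies
(QP2). -/
theorem result {B W : Type*} [Group W] {M : CoxeterMatrix B} (cs : CoxeterSystem M W)
    (K : Set (WPlus cs)) (hK : IsWClass cs K) (hI : ∀ w ∈ K, w * w = 1) (h1 : QP1 cs K) :
    QP2 cs K := by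
  intro r hr x hx i hlt hlt2
  by_contra hne
  set R := datum cs with hR
  -- the root of `r`
  obtain ⟨β, hβ, hβpos, hrβ⟩ : ∃ β ∈ roots cs, 0 < hgt β ∧ rf cs β = r := by
    obtain ⟨u, j, rfl⟩ := hr
    have h2 : gr cs u (ee j) ∈ roots cs := ⟨u, j, rfl⟩
    rcases lt_trichotomy (hgt (gr cs u (ee j))) 0 with h3 | h3 | h3
    · exact ⟨_, neg_mem_roots h2, by rw [map_neg]; linarith, by rw [rf_neg h2, rf_gr]⟩
    · exact absurd h3 (hgt_ne_zero h2)
    · exact ⟨_, h2, h3, rf_gr u j⟩
  have hreflβ : R.refl β = incl cs r := by rw [← hrβ]; rfl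
  have hreflβ' : incl cs r = R.refl β := hreflβ.symm
  have hx2 : x * x = 1 := hI x hx
  set y' := incl cs r * x * incl cs r with hy'
  have hy'R : y' = R.refl β * x * R.refl β := by rw [hreflβ]
  -- the other root
  have hγ : R.act x β ∈ R.Φ := R.act_mem _ _ hβ
  obtain ⟨γ, hγΦ, hγpos, hγβ⟩ : ∃ γ ∈ R.Φ, 0 < R.ht γ ∧ (γ = R.act x β ∨ γ = -(R.act x β)) := by
    rcases lt_trichotomy (R.ht (R.act x β)) 0 with h3 | h3 | h3
    · exact ⟨_, R.neg_mem hγ, by rw [map_neg]; linarith, Or.inr rfl⟩
    · exact absurd h3 (R.ht_ne _ hγ)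
    · exact ⟨_, hγ, h3, Or.inl rfl⟩
  have hactx : R.act x (R.act x β) = β := by rw [← R.act_mul, hx2, R.act_one]
  have hβγ : β ≠ γ := by
    intro h3
    have h4 : R.refl (R.act x β) = R.refl β := by
      rcases hγβ with h5 | h5
      · rw [← h5, ← h3]
      · rw [← R.refl_neg _ hγ, ← h5, ← h3]
    have h5 : y' = x := by
      rw [hy'R, conj_eq hβ, h4, R.refl_mul_refl_mul hβ]
    rw [h5] at hlt
    exact lt_irrefl _ hlt
  obtain ⟨a, b, h⟩ := exists_dih (R := R) hβ hγΦ hβpos hγpos hβγ
  set P := Submodule.span ℝ {β, γ} with hP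
  have hβP : β ∈ R.pos P := ⟨hβ, Submodule.subset_span (by simp), hβpos⟩
  have hxP : ∀ v ∈ P, R.act x v ∈ P := by
    intro v hv
    obtain ⟨s, t, rfl⟩ := Submodule.mem_span_pair.mp hv
    have hβmem : β ∈ P := hβP.2.1
    have hγmem : γ ∈ P := Submodule.subset_span (by simp)
    have h3 : R.act x β ∈ P := by
      rcases hγβ with h5 | h5
      · rw [← h5]; exact hγmem
      · have := P.neg_mem hγmem
        rwa [h5, neg_neg] at this
    have h4 : R.act x γ ∈ P := by
      rcases hγβ with h5 | h5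
      · rw [h5, hactx]; exact hβmem
      · rw [h5, map_neg, hactx]; exact P.neg_mem hβmem
    rw [map_add, map_smul, map_smul]
    exact P.add_mem (P.smul_mem _ h3) (P.smul_mem _ h4)
  -- numerology of lengths
  set s := incl cs (cs.simple i) with hs
  have hse : R.refl (ee i) = s := refl_ee i
  have hss : s * s = 1 := by rw [hs, ← map_mul, cs.simple_mul_simple_self, map_one]
  have a1 := len_simple_mul i x
  have a2 := len_mul_simple i (s * x)
  have a3 := len_mul_simple i x
  have a4 := len_simple_mul i (x * s)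
  have b1 := len_simple_mul i y'
  have b2 := len_mul_simple i (s * y')
  have b3 := len_conj_mod hr x
  rw [← hs] at a1 a2 a3 a4 b1 b2
  rw [← mul_assoc] at a4
  rw [← hy'] at b3
  have hL1 : R.len y' = R.len x + 2 := by
    change lenPlus cs y' = lenPlus cs x + 2
    omega
  have hL2 : R.len x < R.len (s * x) := by
    change lenPlus cs x < lenPlus cs (s * x)
    omega
  have hL3 : R.len (s * y') < R.len y' := by
    change lenPlus cs (s * y') < lenPlus cs y'
    omega
  have hL4 : R.len x < R.len (x * s) := by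
    change lenPlus cs x < lenPlus cs (x * s)
    omega
  have hL5 : R.len (x * s) < R.len (s * x * s) := by
    change lenPlus cs (x * s) < lenPlus cs (s * x * s)
    omega
  have hL6 : R.len (s * x * s) = R.len x + 2 := by
    change lenPlus cs (s * x * s) = lenPlus cs x + 2
    omega
  -- comparison of levels
  have hle := h.case_one hxP hβP (by rw [← hy'R]; omega)
  rw [← hy'R] at hle
  rcases Nat.lt_or_ge (R.lev P x) (R.lev P y') with hcase | hcase
  · apply hne
    have h3 := h.case_two hxP hβP (isSimple_ee i) (by rw [← hy'R]; exact hcase)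
      (by rw [← hy'R]; exact hL1) (by rw [hse]; exact hL2) (by rw [hse, ← hy'R]; exact hL3)
      (by rw [hse]; exact hL4) (by rw [hse]; exact hL5) (by rw [hse]; exact hL6)
    rw [hse, ← hy'R] at h3
    exact h3.symm
  · have hlev : R.lev P y' = R.lev P x := by omega
    have hyx : y' ≠ x := by
      intro h3
      rw [h3] at hL1
      omega
    obtain ⟨k, hk, hpow⟩ := h.case_three hx2 hxP hβP (by rw [← hy'R]; exact hlev)
      (by rw [← hy'R]; exact hyx)
    have hfin := D_finite h hk hpow
    obtain ⟨g, hg, hgs⟩ := exists_standard h hfin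
    obtain ⟨d, hd, x₀, hx₀, hxd⟩ := h.exists_base _ x rfl
    have hxinv : x⁻¹ = x := inv_eq_of_mul_eq_one_left hx2
    have hx₀inv : x₀⁻¹ = x * d := by
      have : x₀ = d⁻¹ * x := by rw [hxd]; group
      rw [this, mul_inv_rev, hxinv, inv_inv]
    have hx₀P : ∀ v ∈ P, R.act x₀⁻¹ v ∈ P := by
      intro v hv
      rw [hx₀inv, R.act_mul]
      exact hxP _ (h.D_act_mem hd hv)
    set d' := R.refl β * (R.refl (R.act x β) * d) with hd'def
    have hd' : d' ∈ R.D a b :=
      mul_mem (h.refl_mem hβP) (mul_mem (h.refl_mem' hγ (hxP _ hβP.2.1)) hd)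
    have hy'd : y' = d' * x₀ := by
      rw [hy'R, conj_eq hβ, hd'def]
      conv_lhs => rw [hxd]
      rw [← hxd, mul_assoc, mul_assoc, ← hxd]
    have e1 := len_conj h hg hgs hx₀ hx₀P _ d hd rfl
    have e2 := len_conj h hg hgs hx₀ hx₀P _ d' hd' rfl
    rw [← hxd] at e1
    rw [← hy'd, hlev] at e2
    -- contradiction with (QP1)
    obtain ⟨w₀, hw₀⟩ := hK
    have hx1K : incl cs g * x * (incl cs g)⁻¹ ∈ K := by
      rw [hw₀] at hx ⊢
      obtain ⟨u, rfl⟩ := hx
      exact ⟨g * u, by rw [map_mul]; group⟩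
    have hconj : incl cs (g * r * g⁻¹) * (incl cs g * x * (incl cs g)⁻¹) *
        incl cs (g * r * g⁻¹) = incl cs g * y' * (incl cs g)⁻¹ := by
      rw [hy', map_mul, map_mul, map_inv]; group
    have h3 := h1 (g * r * g⁻¹) (hr.conj g) _ hx1K (by rw [hconj, e1, e2])
    rw [hconj] at h3
    exact hyx (mul_left_cancel (mul_right_cancel h3))

end Pool.Agent.Results.MP_2f4918_al.QP1ImpliesQP2
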